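import Mathlib

set_option autoImplicit false
open Quaternion Filter Topology

namespace Pool.Agent.Results.MP_3b44a3_an.NotInner

/-- The slice regular function with coefficient sequence `a` (coefficients on the right). -/
noncomputable def ev (a : ℕ → ℍ[ℝ]) (q : ℍ[ℝ]) : ℍ[ℝ] := ∑' n, q ^ n * a n

/-- Coefficients of the symmetrization `f^c * f`. -/
noncomputable def symm (a : ℕ → ℍ[ℝ]) (n : ℕ) : ℍ[ℝ] :=
  ∑ k ∈ Finset.range (n + 1), star (a k) * a (n - k)

def I : ℍ[ℝ] := ⟨0, 1, 0, 0⟩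

noncomputable def c (n : ℕ) : ℍ[ℝ] := ((n.factorial : ℝ)⁻¹) • I ^ n

lemma star_I : star I = -I := by ext <;> simp [I]

lemma norm_I : ‖I‖ = 1 := by
  have h : normSq I = 1 := by simp [I, normSq_def']
  rw [normSq_eq_norm_mul_self] at h
  nlinarith [norm_nonneg I]

lemma symm_c (n : ℕ) : symm c n = if n = 0 then 1 else 0 := by
  have h := (Commute.add_pow (Commute.neg_left (Commute.refl I)) n)
  have h2 : symm c n = ((n.factorial : ℝ)⁻¹) • (-I + I) ^ n := by
    rw [h, symm, Finset.smul_sum]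
    apply Finset.sum_congr rfl
    intro k hk
    have hk' : k ≤ n := Nat.lt_succ_iff.1 (Finset.mem_range.1 hk)
    have h3 : ((n.choose k : ℕ) : ℍ[ℝ]) = ((n.choose k : ℕ) : ℝ) • (1 : ℍ[ℝ]) := by
      rw [Nat.cast_smul_eq_nsmul]; simp
    rw [c, c, Quaternion.star_smul, star_pow, star_I, h3, smul_mul_smul_comm, mul_smul_comm, mul_one,
      smul_smul]
    congr 1
    have := Nat.choose_mul_factorial_mul_factorial hk'
    have h4 : (n.factorial : ℝ) = n.choose k * k.factorial * (n - k).factorial := by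
      exact_mod_cast this.symm
    have h5 : (n.choose k : ℝ) ≠ 0 := by exact_mod_cast (Nat.choose_pos hk').ne'
    rw [h4]
    field_simp
  rw [h2, neg_add_cancel]
  split_ifs with h0
  · subst h0; simp
  · simp [h0]

lemma ev_symm (q : ℍ[ℝ]) : ev (symm c) q = 1 := by
  unfold ev
  rw [tsum_eq_single 0]
  · simp [symm_c]
  · intro n hn; simp [symm_c, hn]

theorem result : ∃ a : ℕ → ℍ[ℝ], Summable (fun n => ‖a n‖ ^ 2) ∧
    (∀ q : ℍ[ℝ], ‖q‖ < 1 → Summable (fun n => q ^ n * a n) ∧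
      Summable (fun n => q ^ n * symm a n) ∧ ‖ev (symm a) q‖ ≤ 1) ∧
    (∀ q : ℍ[ℝ], ‖q‖ = 1 → ∃ b : ℍ[ℝ], ‖b‖ = 1 ∧
      Tendsto (fun r : ℝ => ev (symm a) (r • q)) (𝓝[<] 1) (𝓝 b)) ∧
    ∃ q : ℍ[ℝ], ‖q‖ < 1 ∧ 1 < ‖ev a q‖ := by
  have hn : ∀ n, ‖c n‖ = 1 ^ n / n.factorial := by
    intro n
    rw [c, norm_smul, norm_pow, norm_I, Real.norm_eq_abs, abs_of_pos (by positivity)]
    simp
  have hs : Summable (fun n => ‖c n‖) := by
    simp only [hn]; exact Real.summable_pow_div_factorial 1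
  have h1 : ∀ n, ‖c n‖ ≤ 1 := by
    intro n
    rw [hn, one_pow, div_le_one (by positivity)]
    exact_mod_cast Nat.factorial_pos n
  refine ⟨c, ?_, ?_, ?_, ?_⟩
  · refine Summable.of_nonneg_of_le (fun n => by positivity) (fun n => ?_) hs
    nlinarith [h1 n, norm_nonneg (c n)]
  · intro q hq
    refine ⟨?_, ?_, by rw [ev_symm]; simp⟩
    · refine Summable.of_norm_bounded hs (fun n => ?_)
      rw [norm_mul, norm_pow]
      exact mul_le_of_le_one_left (norm_nonneg _) (pow_le_one₀ (norm_nonneg _) hq.le)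
    · apply summable_of_ne_finset_zero (s := {0})
      intro n hn
      have : n ≠ 0 := by simpa using hn
      simp [symm_c, this]
  · intro q _
    refine ⟨1, by simp, ?_⟩
    simp only [ev_symm]
    exact tendsto_const_nhds
  · refine ⟨(-(1 / 2) : ℝ) • I, by rw [norm_smul, norm_I]; norm_num, ?_⟩
    have hII : I * I = -1 := by ext <;> simp [I]
    have h2 : ∀ n : ℕ, ((-(1 / 2) : ℝ) • I) ^ n * c n =
        ((1 / 2 : ℝ) ^ n / n.factorial) • (1 : ℍ[ℝ]) := by
      intro n
      rw [c, smul_pow, smul_mul_smul_comm, ← (Commute.refl I).mul_pow, hII,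
        show (-1 : ℍ[ℝ]) = (-1 : ℝ) • (1 : ℍ[ℝ]) by simp, smul_pow, one_pow, smul_smul]
      congr 1
      rw [mul_right_comm, ← mul_pow]
      norm_num [div_eq_mul_inv]
    have h3 := Real.summable_pow_div_factorial (1 / 2)
    unfold ev
    simp only [h2]
    rw [h3.tsum_smul_const, norm_smul, norm_one, mul_one, Real.norm_eq_abs]
    have h4 := h3.sum_le_tsum (Finset.range 2) (fun n _ => by positivity)
    simp [Finset.sum_range_succ] at h4
    refine lt_of_lt_of_le ?_ (le_abs_self _)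
    simp only [one_div, inv_pow]
    linarith

end Pool.Agent.Results.MP_3b44a3_an.NotInner
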